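import Pool.Agent.P.MP_797ab1_gt.CtlE

namespace Pool.Agent.Results.MP_797ab1_gt.HyperbolicURC

open Pool.Agent.URC

universe u

/-- In every dimension `n ≥ 2` there is a closed oriented hyperbolic manifold `H^n / Γ` which is
a universal realisator of cycles. -/
theorem result (n : ℕ) (hn : 2 ≤ n) : ∃ Γ : Subgroup (Equiv.Perm (Hyp n)),
    (∀ g ∈ Γ, IsIsom g) ∧ (∀ g ∈ Γ, ∀ x : Hyp n, g x = x → g = 1) ∧
      ProperlyDiscontinuousSMul Γ (Hyp n) ∧
      CompactSpace (MulAction.orbitRel.Quotient Γ (Hyp n)) ∧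
      IsURCSpace.{u} n (MulAction.orbitRel.Quotient Γ (Hyp n)) :=
  final (by omega)

open Topology

/-- Control: for a group as in `result` the quotient is Hausdorff, connected and covered by
`H^n`, and two local sections of the projection (the charts) differ near a point by an element
of the group. -/
theorem quotient_manifold (n : ℕ) (Γ : Subgroup (Equiv.Perm (Hyp n)))
    (h1 : ∀ g ∈ Γ, IsIsom g) (h2 : ∀ g ∈ Γ, ∀ x : Hyp n, g x = x → g = 1)
    (h3 : ProperlyDiscontinuousSMul Γ (Hyp n)) :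
    (∀ a b : MulAction.orbitRel.Quotient Γ (Hyp n), a ≠ b → ∃ U ∈ 𝓝 a, ∃ W ∈ 𝓝 b, U ∩ W = ∅) ∧
      PathConnectedSpace (MulAction.orbitRel.Quotient Γ (Hyp n)) ∧
      IsCoveringMap (Quotient.mk (MulAction.orbitRel Γ (Hyp n))) ∧
      ∀ (σ τ : MulAction.orbitRel.Quotient Γ (Hyp n) → Hyp n)
        (a : MulAction.orbitRel.Quotient Γ (Hyp n)),
        (∀ U ∈ 𝓝 (σ a), σ ⁻¹' U ∈ 𝓝 a) → (∀ U ∈ 𝓝 (τ a), τ ⁻¹' U ∈ 𝓝 a) →
        (∀ᶠ b in 𝓝 a, Quotient.mk (MulAction.orbitRel Γ (Hyp n)) (σ b) = b ∧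
          Quotient.mk (MulAction.orbitRel Γ (Hyp n)) (τ b) = b) →
        ∃ g ∈ Γ, ∀ᶠ b in 𝓝 a, τ b = g (σ b) :=
  Ctl.quotient_plain Γ h1 h2 h3

/-- Control: with `D f y r a` saying that `f` has derivative `a` at `y` in the direction `r`, the
hyperboloid has global coordinates `s` in which the Lorentz form induces a Riemannian metric `G`
that every `IsIsom` map preserves, and whose symmetric metric connection `K` has the curvature
tensor `R(r, v) w = -(G(v, w) r - G(r, w) v)` of constant sectional curvature `-1`. -/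
theorem curvature_neg_one (n : ℕ)
    (D : ((Fin n → ℝ) → ℝ) → (Fin n → ℝ) → (Fin n → ℝ) → ℝ → Prop)
    (hD : ∀ f y r a, D f y r a ↔
      ∀ ε : ℝ, 0 < ε → ∀ᶠ t : ℝ in 𝓝 0, |f (y + t • r) - f y - t * a| ≤ ε * |t|) :
    ∃ (s : (Fin n → ℝ) → Hyp n) (T : (Fin n → ℝ) → (Fin n → ℝ) → V n)
      (G : (Fin n → ℝ) → (Fin n → ℝ) → (Fin n → ℝ) → ℝ)
      (K : (Fin n → ℝ) → (Fin n → ℝ) → (Fin n → ℝ) → Fin n → ℝ)
      (A : (Fin n → ℝ) → (Fin n → ℝ) → (Fin n → ℝ) → (Fin n → ℝ) → Fin n → ℝ),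
      Continuous s ∧ Function.Surjective s ∧ (∀ y i, (s y).1 (Fin.succ i) = y i) ∧
      (∀ y, (s y).1 0 = √(1 + ∑ i, y i * y i)) ∧
      (∀ y r j, D (fun y => (s y).1 j) y r (T y r j)) ∧
      (∀ y r v, G y r v = lor (T y r) (T y v)) ∧
      (∀ y r v, G y r v =
        ∑ i, r i * v i - (∑ i, y i * r i) * (∑ i, y i * v i) / (1 + ∑ i, y i * y i)) ∧
      (∀ y r, r ≠ 0 → 0 < G y r r) ∧
      (∀ g, IsIsom g → ∀ y r v, ∃ r' v' : Fin n → ℝ,
        (∀ i, D (fun y => (g (s y)).1 (Fin.succ i)) y r (r' i)) ∧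
        (∀ i, D (fun y => (g (s y)).1 (Fin.succ i)) y v (v' i)) ∧
        G (fun i => (g (s y)).1 (Fin.succ i)) r' v' = G y r v) ∧
      (∀ y r v, K y r v = -G y r v • y) ∧ (∀ y r v, K y r v = K y v r) ∧
      (∀ y r v w, D (fun y => G y v w) y r (G y (K y r v) w + G y v (K y r w))) ∧
      (∀ y r v w i, D (fun y => K y v w i) y r (A y r v w i)) ∧
      ∀ y r v w, A y r v w - A y v r w + K y r (K y v w) - K y v (K y r w) =
        -(G y v w • r - G y r w • v) :=
  Ctl.metric_plain D hD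

/-- Control: the manifold can be taken with a fundamental cycle of its own, and for
path-connected `X` the covers are quotients of `H^n` by subgroups of finite index. -/
theorem finite_index_form (n : ℕ) (hn : 2 ≤ n) : ∃ Γ : Subgroup (Equiv.Perm (Hyp n)),
    (∀ g ∈ Γ, IsIsom g) ∧ (∀ g ∈ Γ, ∀ x : Hyp n, g x = x → g = 1) ∧
      ProperlyDiscontinuousSMul Γ (Hyp n) ∧
      CompactSpace (MulAction.orbitRel.Quotient Γ (Hyp n)) ∧
      (∃ ν : Ch (MulAction.orbitRel.Quotient Γ (Hyp n)) (n + 1), IsFundCycle n ν) ∧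
      ∀ (X : Type u) [TopologicalSpace X] [PathConnectedSpace X] (z : Ch X (n + 1)),
        boundary z = 0 → ∃ Γ' ≤ Γ,
          (∃ T : Finset (Equiv.Perm (Hyp n)), ∀ g ∈ Γ, ∃ t ∈ T, t⁻¹ * g ∈ Γ') ∧
          ProperlyDiscontinuousSMul Γ' (Hyp n) ∧
          CompactSpace (MulAction.orbitRel.Quotient Γ' (Hyp n)) ∧
          ∃ (μ : Ch (MulAction.orbitRel.Quotient Γ' (Hyp n)) (n + 1))
            (f : ContinuousMap (MulAction.orbitRel.Quotient Γ' (Hyp n)) X) (q : ℤ),
            IsFundCycle n μ ∧ q ≠ 0 ∧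
              ∃ w : Ch X (n + 2), induced f μ - q • z = boundary w :=
  Ctl.finite_index_plain (by omega)

/-- Control: with connected covers for every nonempty `X` the definition could not be met by any
manifold: some cycle has no non-zero multiple that comes from a connected space. -/
theorem connected_covers_fail (n : ℕ) (hn : 2 ≤ n) :
    ∃ (X : Type) (_ : TopologicalSpace X) (z : Ch X (n + 1)),
      Nonempty X ∧ boundary z = 0 ∧ ∀ (N : Type) [TopologicalSpace N] [ConnectedSpace N]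
        (μ : Ch N (n + 1)) (f : ContinuousMap N X) (q : ℤ), q ≠ 0 →
          ¬∃ w : Ch X (n + 2), induced f μ - q • z = boundary w :=
  Ctl.literal_fails (by omega)

/-- Control: the sphere has a fundamental cycle and is not a universal realisator of cycles. -/
theorem sphere_not (n : ℕ) (hn : 2 ≤ n) :
    (∃ μ : Ch {x : V n // ∑ i, x i * x i = 1} (n + 1), IsFundCycle n μ) ∧
      ¬IsURCSpace.{u} n {x : V n // ∑ i, x i * x i = 1} :=
  ⟨Ctl.sphere_fund hn, Ctl.not_sphere hn⟩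

end Pool.Agent.Results.MP_797ab1_gt.HyperbolicURC
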