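import Pool.Agent.P.MP_797ab1_gt.AGNum

namespace Pool.Agent.Results.MP_797ab1_gt.SimplestURC

open Pool.Agent.URC Pool.Agent.URC.AG

universe u

/-- Every closed oriented arithmetic hyperbolic manifold `H^n / Γ` of simplest type is a universal
realisator of cycles. -/
theorem result (n : ℕ) (hn : 2 ≤ n) (Γ : Subgroup (Equiv.Perm (Hyp n)))
    (hiso : ∀ g ∈ Γ, IsIsom g) (hfree : ∀ g ∈ Γ, ∀ x : Hyp n, g x = x → g = 1)
    (hpd : ProperlyDiscontinuousSMul Γ (Hyp n))
    (hcpt : CompactSpace (MulAction.orbitRel.Quotient Γ (Hyp n))) (har : IsSimplest Γ) :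
    IsURCSpace.{u} n (MulAction.orbitRel.Quotient Γ (Hyp n)) :=
  AG.final (by omega) hiso hfree hpd hcpt har

end Pool.Agent.Results.MP_797ab1_gt.SimplestURC
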